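import Pool.Agent.H529R3.Gap.Main
import Pool.Agent.H249R3.Gau.Alt2

/-! Gaps for `NE = ESPACE` and `NE = coNE`. -/

set_option autoImplicit false

namespace H529R3.Gap

open Pool.Agent.NPC Pool.Agent.H620R2.Gauge Pool.Agent.H622R2.Exp Filter

theorem gap_alt (f : ℕ → ℝ) (O : Set Oracle)
    (h1 : ∀ A : Oracle, (∀ L, InSpace Pol A L → InTime Pol A L) →
      (∃ L, InSpace Lin A L ∧ ¬ InAlt Lin A L) → A ∈ O)
    (h2 : ∀ A ∈ O, ∀ L, InSpace Pol A L → InAlt Pol A L) :
    Null f O ↔ ∀ ε : ℝ, 0 < ε → ∃ᶠ N : ℕ in atTop,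
      f N ≤ 2 ^ (Real.logb 2 (Real.logb 2 N)) ^ ε := by
  constructor
  · intro hn ε hε
    by_contra hcon
    rw [not_frequently] at hcon
    set ε₁ : ℝ := min ε (1 / 2) with hε₁
    have hε₁0 : 0 < ε₁ := lt_min hε (by norm_num)
    set F : ℕ → ℝ := fun N => 2 ^ (Real.logb 2 (Real.logb 2 N)) ^ ε₁ with hF
    set g : ℕ → ℝ := fun N => min (f N) (F N) with hg
    have hgO : Null g O := H529R3.Lev.null_anti (fun N => min_le_left _ _) hn
    have hgE : Null g {A : Oracle | ∀ L, InSpace Lin A L → InAlt Lin A L} := by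
      refine (Pool.Agent.H249R3.Gau.resAltE g {A : Oracle | ∀ L, InSpace Lin A L → InAlt Lin A L}
        (fun A hA L hL => (hA L hL).isNTime.isAlt) (fun A hA => hA)).2 fun ε' hε' => ?_
      apply Eventually.frequently
      filter_upwards [tendsto_loglog.eventually
        (rpow_le_mul (show ε₁ < 1 from (min_le_right _ _).trans_lt (by norm_num)) hε'),
        tendsto_log.eventually_gt_atTop 0] with N h3 h4
      refine (min_le_right _ _).trans ?_
      calc F N ≤ (2 : ℝ) ^ (ε' * Real.logb 2 (Real.logb 2 N)) :=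
            Real.rpow_le_rpow_of_exponent_le (by norm_num) h3
        _ = (Real.logb 2 N) ^ ε' := by
            rw [mul_comm, Real.rpow_mul (by norm_num),
              Real.rpow_logb (by norm_num) (by norm_num) h4]
    have hU := (null_union hgO hgE)
    refine notNullEXP (f := g) (half_pos hε₁0) ?_
      {A : Oracle | ∀ L, InSpace Pol A L → InTime Pol A L} (fun A hA => hA) (hU.mono ?_)
    · filter_upwards [hcon, tendsto_loglog.eventually_gt_atTop 1] with N h3 h4
      have h5 : (2 : ℝ) ^ (Real.logb 2 (Real.logb 2 N)) ^ (ε₁ / 2) < F N :=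
        Real.rpow_lt_rpow_of_exponent_lt (by norm_num)
          (Real.rpow_lt_rpow_of_exponent_lt h4 (by linarith))
      have h6 : F N ≤ 2 ^ (Real.logb 2 (Real.logb 2 N)) ^ ε :=
        Real.rpow_le_rpow_of_exponent_le (by norm_num)
          (Real.rpow_le_rpow_of_exponent_le h4.le (min_le_left _ _))
      exact lt_min (h5.trans_le (h6.trans (not_le.1 h3).le)) h5
    · intro A hA
      by_cases h3 : ∃ L, InSpace Lin A L ∧ ¬ InAlt Lin A L
      · exact Or.inl (h1 A hA h3)
      · right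
        push Not at h3
        exact h3
  · intro hf
    exact ((Pool.Agent.H249R3.Gau.resAltEXP f
      {A : Oracle | ∀ L, InSpace Pol A L → InAlt Pol A L}
      (fun A hA L hL => (hA L hL).isNTime.isAlt) fun A hA => hA).2 hf).mono fun A hA => h2 A hA

theorem gap_co (f : ℕ → ℝ) (O : Set Oracle)
    (h1 : ∀ A : Oracle, (∀ L, InNTime Lin A L ↔ InNTime Lin A Lᶜ) →
      (∃ L, IsNP A L ∧ ¬ WithAdvice (IsNP A) Lᶜ) → A ∈ O)
    (h2 : ∀ A ∈ O, ∀ L, InNTime Lin A L ↔ InNTime Lin A Lᶜ) :
    Null f O ↔ ∀ ε : ℝ, 0 < ε → ∃ᶠ N : ℕ in atTop,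
      f N ≤ ε * Real.logb 2 (Real.logb 2 N) := by
  refine ⟨fun hn => ?_, fun hf =>
    ((Pool.Agent.H249R3.Gau.resNE f).1.2 hf).mono fun A hA => h2 A hA⟩
  by_contra hcon
  push Not at hcon
  obtain ⟨ε, hε, hcon⟩ := hcon
  set g : ℕ → ℝ := fun N => min (f N) (Real.logb 2 (Real.logb 2 N)) with hg
  have hgE : Null g {A : Oracle | ∀ L, IsNP A L → WithAdvice (IsNP A) Lᶜ} := by
    refine nullN (f := g) (fun ε' hε' => ?_) _ fun A hA => hA _ (hitLang_np A)
    apply Eventually.frequently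
    filter_upwards [tendsto_log.eventually (rpow_le_two (ε := 1) one_pos hε'),
      loglog_le (ε := 1) one_pos] with N h3 h4
    exact (min_le_right _ _).trans (h4.trans h3)
  have hgN : Null g O := H529R3.Lev.null_anti (fun N => min_le_left _ _) hn
  have h1' : Null g {A : Oracle | ∀ L, InNTime Lin A L ↔ InNTime Lin A Lᶜ} := by
    refine (null_union hgE hgN).mono fun A hA => ?_
    by_cases h : ∃ L, IsNP A L ∧ ¬ WithAdvice (IsNP A) Lᶜ
    · exact Or.inr (h1 A hA h)
    · left
      push Not at h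
      exact h
  have h2' := (Pool.Agent.H249R3.Gau.resNE g).1.1 h1' (min ε (1 / 2)) (by positivity)
  apply h2'
  have h3 : ∀ᶠ N : ℕ in atTop, ε * Real.logb 2 (Real.logb 2 N) < f N := hcon
  filter_upwards [h3, tendsto_loglog.eventually_gt_atTop 1] with N h4 h5
  rw [not_le, hg]
  apply lt_min
  · exact lt_of_le_of_lt (mul_le_mul_of_nonneg_right (min_le_left _ _) (by linarith)) h4
  · have h6 : min ε (1 / 2) * Real.logb 2 (Real.logb 2 N) ≤
        1 / 2 * Real.logb 2 (Real.logb 2 N) :=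
      mul_le_mul_of_nonneg_right (min_le_right _ _) (by linarith)
    linarith

end H529R3.Gap
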