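import Pool.Agent.H622R2.Exp.FinalE
import Pool.Agent.H620R2.Gauge.Cover
import Pool.Agent.H620R2.Gauge2.CoverN
import Pool.Agent.H529R3.Lev.Main

/-! Collapses at the exponential levels without collapse at the level below. -/

set_option autoImplicit false

namespace H529R3.Gap

open Pool.Agent.NPC Pool.Agent.H620R2.Gauge Pool.Agent.H622R2.Exp Filter

theorem tendsto_log : Tendsto (fun N : ℕ => Real.logb 2 (N : ℝ)) atTop atTop :=
  (Real.tendsto_logb_atTop (b := 2) (by norm_num)).comp tendsto_natCast_atTop_atTop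

theorem tendsto_loglog : Tendsto (fun N : ℕ => Real.logb 2 (Real.logb 2 (N : ℝ))) atTop atTop :=
  (Real.tendsto_logb_atTop (b := 2) (by norm_num)).comp tendsto_log

theorem rpow_le_two {ε ε' : ℝ} (hε : 0 < ε) (hε' : 0 < ε') :
    ∀ᶠ y : ℝ in atTop, y ^ ε ≤ 2 ^ y ^ ε' := by
  have hlog2 : 0 < Real.log 2 := Real.log_pos (by norm_num)
  have h := (isLittleO_log_rpow_atTop hε').def (show 0 < Real.log 2 / ε by positivity)
  filter_upwards [h, eventually_ge_atTop 1] with y h1 h4
  have hl : 0 ≤ Real.log y := Real.log_nonneg h4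
  have hy : 0 < y := by linarith
  rw [Real.norm_eq_abs, Real.norm_eq_abs, abs_of_nonneg hl,
    abs_of_nonneg (Real.rpow_nonneg hy.le _)] at h1
  rw [Real.rpow_def_of_pos hy, Real.rpow_def_of_pos (by norm_num : (0 : ℝ) < 2)]
  apply Real.exp_le_exp.2
  calc Real.log y * ε ≤ (Real.log 2 / ε * y ^ ε') * ε := mul_le_mul_of_nonneg_right h1 hε.le
    _ = Real.log 2 * y ^ ε' := by field_simp

theorem rpow_le_mul {ε ε' : ℝ} (hε : ε < 1) (hε' : 0 < ε') :
    ∀ᶠ z : ℝ in atTop, z ^ ε ≤ ε' * z := by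
  have h := (tendsto_rpow_neg_atTop (show 0 < 1 - ε by linarith)).eventually_le_const hε'
  filter_upwards [h, eventually_ge_atTop 1] with z h1 h4
  have hz : 0 < z := by linarith
  calc z ^ ε = z ^ (-(1 - ε)) * z ^ (1 : ℝ) := by
        rw [← Real.rpow_add hz]; congr 1; ring
    _ ≤ ε' * z := by
        rw [Real.rpow_one]
        exact mul_le_mul_of_nonneg_right h1 hz.le

/-- The general form: a set `S` which is null for the gauges at the polynomial level is left out. -/
theorem gap_gen (f : ℕ → ℝ) (O S : Set Oracle)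
    (hS : ∀ g : ℕ → ℝ, (∀ ε : ℝ, 0 < ε → ∃ᶠ N : ℕ in atTop, g N ≤ 2 ^ (Real.logb 2 N) ^ ε) →
      Null g S)
    (h1 : ∀ A : Oracle, (∀ L, InSpace Lin A L → InTime Lin A L) → A ∉ S → A ∈ O)
    (h2 : ∀ A ∈ O, ∀ L, InNTime Lin A L → InTime Lin A L) :
    Null f O ↔ ∀ ε : ℝ, 0 < ε → ∃ᶠ N : ℕ in atTop, f N ≤ (Real.logb 2 N) ^ ε := by
  constructor
  · intro hn ε hε
    by_contra hcon
    rw [not_frequently] at hcon
    set g : ℕ → ℝ := fun N => min (f N) ((Real.logb 2 N) ^ ε) with hg
    have hgO : Null g O := H529R3.Lev.null_anti (fun N => min_le_left _ _) hn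
    have hgP : Null g S := by
      refine hS g fun ε' hε' => ?_
      exact ((tendsto_log.eventually (rpow_le_two hε hε')).mono
        fun N h => (min_le_right _ _).trans h).frequently
    have hU := (null_union hgO hgP)
    refine notNullE (f := g) (half_pos hε) ?_
      {A : Oracle | ∀ L, InSpace Lin A L → InTime Lin A L} (fun A hA => hA) (hU.mono ?_)
    · filter_upwards [hcon, tendsto_log.eventually_gt_atTop 1] with N h3 h4
      have h5 : (Real.logb 2 N) ^ (ε / 2) < (Real.logb 2 N) ^ ε :=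
        Real.rpow_lt_rpow_of_exponent_lt h4 (by linarith)
      exact lt_min (h5.trans (not_le.1 h3)) h5
    · intro A hA
      by_cases h3 : A ∈ S
      · exact Or.inr h3
      · exact Or.inl (h1 A hA h3)
  · intro hf
    exact (((resE f).1 {A : Oracle | ∀ L, InNTime Lin A L → InTime Lin A L}
      (fun A hA L hL => hA L (hL.isSpace good_Lin)) (fun A hA => hA)).2 hf).mono
      fun A hA => h2 A hA

theorem gap_below (f : ℕ → ℝ) (O : Set Oracle)
    (h1 : ∀ A : Oracle, (∀ L, InSpace Lin A L → InTime Lin A L) →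
      (∃ L, IsPSPACE A L ∧ ¬ IsPHpoly A L) → A ∈ O)
    (h2 : ∀ A ∈ O, ∀ L, InNTime Lin A L → InTime Lin A L) :
    Null f O ↔ ∀ ε : ℝ, 0 < ε → ∃ᶠ N : ℕ in atTop, f N ≤ (Real.logb 2 N) ^ ε := by
  refine gap_gen f O {A : Oracle | ∀ L, IsPSPACE A L → IsPHpoly A L} (fun g hg => ?_) ?_ h2
  · exact null_of_frequently g hg _ fun A hA => hA _ (parLang_pspace A)
  · intro A hA hS
    refine h1 A hA ?_
    by_contra h3
    push Not at h3
    exact hS h3

theorem gap_np (f : ℕ → ℝ) (O : Set Oracle)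
    (h1 : ∀ A : Oracle, (∀ L, InSpace Lin A L → InTime Lin A L) →
      (∃ L, IsNP A L ∧ ¬ WithAdvice (IsNP A) Lᶜ) → A ∈ O)
    (h2 : ∀ A ∈ O, ∀ L, InNTime Lin A L → InTime Lin A L) :
    Null f O ↔ ∀ ε : ℝ, 0 < ε → ∃ᶠ N : ℕ in atTop, f N ≤ (Real.logb 2 N) ^ ε := by
  refine gap_gen f O {A : Oracle | ∀ L, IsNP A L → WithAdvice (IsNP A) Lᶜ} (fun g hg => ?_) ?_ h2
  · exact nullN hg _ fun A hA => hA _ (hitLang_np A)
  · intro A hA hS
    refine h1 A hA ?_
    by_contra h3
    push Not at h3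
    exact hS h3

theorem gap_above (f : ℕ → ℝ) (O : Set Oracle)
    (h1 : ∀ A : Oracle, (∀ L, InSpace Pol A L → InTime Pol A L) →
      (∃ L, InNTime Lin A L ∧ ¬ InTime Lin A L) → A ∈ O)
    (h2 : ∀ A ∈ O, ∀ L, InNTime Pol A L → InTime Pol A L) :
    Null f O ↔ ∀ ε : ℝ, 0 < ε → ∃ᶠ N : ℕ in atTop,
      f N ≤ 2 ^ (Real.logb 2 (Real.logb 2 N)) ^ ε := by
  constructor
  · intro hn ε hε
    by_contra hcon
    rw [not_frequently] at hcon
    set ε₁ : ℝ := min ε (1 / 2) with hε₁
    have hε₁0 : 0 < ε₁ := lt_min hε (by norm_num)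
    set F : ℕ → ℝ := fun N => 2 ^ (Real.logb 2 (Real.logb 2 N)) ^ ε₁ with hF
    set g : ℕ → ℝ := fun N => min (f N) (F N) with hg
    have hgO : Null g O := H529R3.Lev.null_anti (fun N => min_le_left _ _) hn
    have hgE : Null g {A : Oracle | ∀ L, InNTime Lin A L → InTime Lin A L} := by
      refine ((resE g).1 {A : Oracle | ∀ L, InNTime Lin A L → InTime Lin A L}
        (fun A hA L hL => hA L (hL.isSpace good_Lin)) (fun A hA => hA)).2 fun ε' hε' => ?_
      apply Eventually.frequently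
      filter_upwards [tendsto_loglog.eventually
        (rpow_le_mul (show ε₁ < 1 from (min_le_right _ _).trans_lt (by norm_num)) hε'),
        tendsto_log.eventually_gt_atTop 0] with N h3 h4
      refine (min_le_right _ _).trans ?_
      calc F N ≤ (2 : ℝ) ^ (ε' * Real.logb 2 (Real.logb 2 N)) :=
            Real.rpow_le_rpow_of_exponent_le (by norm_num) h3
        _ = (Real.logb 2 N) ^ ε' := by
            rw [mul_comm, Real.rpow_mul (by norm_num),
              Real.rpow_logb (by norm_num) (by norm_num) h4]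
    have hU := (null_union hgO hgE)
    refine notNullEXP (f := g) (half_pos hε₁0) ?_
      {A : Oracle | ∀ L, InSpace Pol A L → InTime Pol A L} (fun A hA => hA) (hU.mono ?_)
    · filter_upwards [hcon, tendsto_loglog.eventually_gt_atTop 1] with N h3 h4
      have h5 : (2 : ℝ) ^ (Real.logb 2 (Real.logb 2 N)) ^ (ε₁ / 2) < F N :=
        Real.rpow_lt_rpow_of_exponent_lt (by norm_num)
          (Real.rpow_lt_rpow_of_exponent_lt h4 (by linarith))
      have h6 : F N ≤ 2 ^ (Real.logb 2 (Real.logb 2 N)) ^ ε :=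
        Real.rpow_le_rpow_of_exponent_le (by norm_num)
          (Real.rpow_le_rpow_of_exponent_le h4.le (min_le_left _ _))
      exact lt_min (h5.trans_le (h6.trans (not_le.1 h3).le)) h5
    · intro A hA
      by_cases h3 : ∃ L, InNTime Lin A L ∧ ¬ InTime Lin A L
      · exact Or.inl (h1 A hA h3)
      · right
        push Not at h3
        exact h3
  · intro hf
    exact (nullD good_Pol (asyEXP hf)).mono fun A hA => h2 A hA _ (hit2_ntime good_Pol A)

end H529R3.Gap
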