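import Pool.Agent.H529R3.Gap.Main
import Pool.Agent.H249R3.Gau.Alt

/-! Exponential space in the exponential hierarchy, without `PSPACE` in `PH`. -/

set_option autoImplicit false

namespace H529R3.Gap

open Pool.Agent.NPC Pool.Agent.H620R2.Gauge Pool.Agent.H622R2.Exp Filter

theorem gap_ph (f : ℕ → ℝ) (O : Set Oracle)
    (h1 : ∀ A : Oracle, (∀ L, InSpace Lin A L → InTime Lin A L) →
      (∃ L, IsPSPACE A L ∧ ¬ IsPHpoly A L) → A ∈ O)
    (h2 : ∀ A ∈ O, ∀ L, InSpace Lin A L → InAlt Lin A L) :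
    Null f O ↔ ∀ ε : ℝ, 0 < ε → ∃ᶠ N : ℕ in atTop, f N ≤ (Real.logb 2 N) ^ ε := by
  constructor
  · intro hn
    refine (gap_below f {A | A ∈ O ∧ ∀ L, InNTime Lin A L → InTime Lin A L} ?_
      fun A hA => hA.2).1 (hn.mono fun A hA => hA.1)
    intro A hA hL
    exact ⟨h1 A hA hL, fun L h => hA L (h.isSpace good_Lin)⟩
  · intro hf
    exact ((Pool.Agent.H249R3.Gau.resAltE f
      {A : Oracle | ∀ L, InSpace Lin A L → InAlt Lin A L}
      (fun A hA L hL => (hA L hL).isNTime.isAlt) fun A hA => hA).2 hf).mono fun A hA => h2 A hA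

end H529R3.Gap
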